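import Mathlib

set_option autoImplicit false
open Complex Filter MeasureTheory Set
open scoped Topology Nat

namespace Pool.Agent.H79.BP

/-- The Borel transform `γ(t) = ∑ n! c_n t^(-n-1)` of `L(z) = ∑ c_n z^n`; the number `n! c_n` is the
`n`-th derivative of `L` at `0`. -/
noncomputable def borel (L : ℂ → ℂ) (t : ℂ) : ℂ := ∑' n : ℕ, iteratedDeriv n L 0 / t ^ (n + 1)

variable {L : ℂ → ℂ} {A B : ℝ}

/-- Cauchy's estimate for the Taylor coefficients. -/
lemma coef_bound (hL : Differentiable ℂ L) (hA : 0 ≤ A) (hB : 0 < B)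
    (hg : ∀ z : ℂ, ‖L z‖ ≤ A * Real.exp (B * ‖z‖)) (n : ℕ) :
    ‖iteratedDeriv n L 0‖ ≤ A * (Real.exp 1 * B) ^ n := by
  rcases Nat.eq_zero_or_pos n with hn | hn
  · subst hn
    have := hg 0
    simpa using this
  · have hn' : (0 : ℝ) < n := by exact_mod_cast hn
    have hR : 0 < (n : ℝ) / B := by positivity
    have h1 := norm_iteratedDeriv_le_of_forall_mem_sphere_norm_le (c := 0) (R := (n : ℝ) / B)
      (C := A * Real.exp n) (f := L) n hR hL.diffContOnCl (by
        intro z hz
        have hz' : ‖z‖ = (n : ℝ) / B := by simpa using hz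
        refine (hg z).trans ?_
        rw [hz', mul_div_cancel₀ _ hB.ne'])
    refine h1.trans ?_
    have h2 : (n ! : ℝ) ≤ (n : ℝ) ^ n := by exact_mod_cast Nat.factorial_le_pow n
    have h3 : (n ! : ℝ) * (A * Real.exp n) / ((n : ℝ) / B) ^ n
        = ((n ! : ℝ) / (n : ℝ) ^ n) * (A * (Real.exp 1 * B) ^ n) := by
      rw [mul_pow, ← Real.exp_nat_mul, mul_one, div_pow]
      field_simp
    rw [h3]
    have h4 : (n ! : ℝ) / (n : ℝ) ^ n ≤ 1 := by
      rw [div_le_one (by positivity)]
      exact h2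
    have h5 : 0 ≤ A * (Real.exp 1 * B) ^ n := by positivity
    nlinarith

/-- The Borel transform is holomorphic outside of a large disc. -/
lemma borel_diff (hL : Differentiable ℂ L) (hA : 0 ≤ A) (hB : 0 < B)
    (hg : ∀ z : ℂ, ‖L z‖ ≤ A * Real.exp (B * ‖z‖)) {ρ : ℝ} (hρ : Real.exp 1 * B < ρ) :
    DifferentiableOn ℂ (borel L) {t : ℂ | ρ < ‖t‖} := by
  have hρ0 : 0 < ρ := lt_trans (by positivity) hρ
  have hs : Summable (fun n : ℕ => A / ρ * ((Real.exp 1 * B) / ρ) ^ n) := by
    apply Summable.mul_left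
    apply summable_geometric_of_lt_one (by positivity)
    rw [div_lt_one hρ0]
    exact hρ
  refine differentiableOn_tsum_of_summable_norm hs ?_ (isOpen_lt continuous_const continuous_norm) ?_
  · intro n
    refine DifferentiableOn.div (differentiableOn_const _) (by fun_prop) ?_
    intro t ht
    have : t ≠ 0 := by
      rintro rfl
      simp at ht
      linarith
    exact pow_ne_zero _ this
  · intro n t ht
    have ht' : ρ < ‖t‖ := ht
    rw [norm_div, norm_pow]
    have h1 := coef_bound hL hA hB hg n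
    calc ‖iteratedDeriv n L 0‖ / ‖t‖ ^ (n + 1) ≤ (A * (Real.exp 1 * B) ^ n) / ρ ^ (n + 1) := by
          gcongr
      _ = A / ρ * ((Real.exp 1 * B) / ρ) ^ n := by
          rw [div_pow, pow_succ]
          field_simp

/-- The Laplace integral along the ray in the direction `w`. -/
noncomputable def lap (L : ℂ → ℂ) (w t : ℂ) : ℂ :=
  ∫ r : ℝ in Ioi 0, w * L (r * w) * Complex.exp (-(r * w * t))

lemma norm_exp_eq (w t : ℂ) (r : ℝ) :
    ‖Complex.exp (-(r * w * t))‖ = Real.exp (-(r * (t * w).re)) := by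
  rw [Complex.norm_exp, Complex.neg_re]
  congr 2
  rw [mul_assoc, Complex.re_ofReal_mul, mul_comm w t]

lemma integrable_exp (c : ℝ) (hc : 0 < c) (K : ℝ) :
    IntegrableOn (fun r : ℝ => K * Real.exp (-(c * r))) (Ioi 0) := by
  have h1 := exp_neg_integrableOn_Ioi 0 hc
  have h2 : IntegrableOn (fun r : ℝ => K * Real.exp (-c * r)) (Ioi 0) := h1.const_mul K
  simpa [neg_mul] using h2

/-- The Laplace integral is holomorphic in the half plane. -/
lemma lap_diff (hL : Differentiable ℂ L) {w : ℂ} (hw : ‖w‖ = 1) {c M : ℝ} (hM : 0 ≤ M)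
    (hb : ∀ r : ℝ, 0 ≤ r → ‖L (r * w)‖ ≤ M * Real.exp (c * r)) :
    DifferentiableOn ℂ (lap L w) {t : ℂ | c < (t * w).re} := by
  intro t₀ ht₀
  have ht₀' : c < (t₀ * w).re := ht₀
  set d := ((t₀ * w).re - c) / 2 with hd
  have hd0 : 0 < d := by
    rw [hd]
    linarith
  have hLc : Continuous L := hL.continuous
  have hre : ∀ t ∈ Metric.ball t₀ d, c + d < (t * w).re := by
    intro t ht
    have h1 : ‖(t - t₀) * w‖ < d := by
      rw [norm_mul, hw, mul_one]
      simpa [dist_eq_norm] using ht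
    have h2 : -((t - t₀) * w).re ≤ ‖(t - t₀) * w‖ :=
      (neg_le_abs _).trans (Complex.abs_re_le_norm _)
    have h3 : (t * w).re = (t₀ * w).re + ((t - t₀) * w).re := by
      rw [← Complex.add_re]
      congr 1
      ring
    rw [h3]
    have h4 : (t₀ * w).re = c + 2 * d := by
      rw [hd]
      ring
    linarith
  have key := hasDerivAt_integral_of_dominated_loc_of_deriv_le (μ := volume.restrict (Ioi (0 : ℝ)))
    (F := fun (t : ℂ) (r : ℝ) => w * L (r * w) * Complex.exp (-(r * w * t)))
    (F' := fun (t : ℂ) (r : ℝ) => w * L (r * w) * (Complex.exp (-(r * w * t)) * -(r * w)))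
    (x₀ := t₀) (s := Metric.ball t₀ d)
    (bound := fun r => (M * (2 / d)) * Real.exp (-(d / 2 * r)))
    (Metric.ball_mem_nhds t₀ hd0)
    (Eventually.of_forall (fun t => by
      apply Continuous.aestronglyMeasurable
      fun_prop))
    (by
      refine Integrable.mono' (integrable_exp (2 * d) (by positivity) M)
        (by
          apply Continuous.aestronglyMeasurable
          fun_prop) ?_
      rw [ae_restrict_iff' measurableSet_Ioi]
      refine Eventually.of_forall (fun r hr => ?_)
      have hr' : 0 < r := hr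
      rw [norm_mul, norm_mul, hw, one_mul, norm_exp_eq]
      calc ‖L (r * w)‖ * Real.exp (-(r * (t₀ * w).re))
          ≤ (M * Real.exp (c * r)) * Real.exp (-(r * (t₀ * w).re)) := by
            gcongr
            exact hb r hr'.le
        _ = M * Real.exp (-(2 * d * r)) := by
            rw [mul_assoc, ← Real.exp_add]
            congr 2
            rw [hd]
            ring)
    (by
      apply Continuous.aestronglyMeasurable
      fun_prop)
    (by
      rw [ae_restrict_iff' measurableSet_Ioi]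
      refine Eventually.of_forall (fun r hr t ht => ?_)
      have hr' : 0 < r := hr
      have h1 := hre t ht
      rw [norm_mul, norm_mul, hw, one_mul, norm_mul, norm_exp_eq, norm_neg, norm_mul, hw, mul_one,
        Complex.norm_real, Real.norm_eq_abs, abs_of_pos hr']
      have h2 : r ≤ 2 / d * Real.exp (d / 2 * r) := by
        have h3 := Real.add_one_le_exp (d / 2 * r)
        have h4 : d / 2 * r ≤ Real.exp (d / 2 * r) := by linarith
        calc r = 2 / d * (d / 2 * r) := by
              field_simp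
          _ ≤ _ := by gcongr
      calc ‖L (r * w)‖ * (Real.exp (-(r * (t * w).re)) * r)
          ≤ (M * Real.exp (c * r)) * (Real.exp (-(r * (c + d))) * (2 / d * Real.exp (d / 2 * r))) := by
            gcongr
            exact hb r hr'.le
        _ = M * (2 / d) * Real.exp (-(d / 2 * r)) := by
            have h5 : Real.exp (c * r) * Real.exp (-(r * (c + d))) * Real.exp (d / 2 * r)
                = Real.exp (-(d / 2 * r)) := by
              rw [← Real.exp_add, ← Real.exp_add]
              congr 1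
              ring
            rw [← h5]
            ring)
    (integrable_exp (d / 2) (by positivity) _)
    (by
      refine Eventually.of_forall (fun r t _ => ?_)
      have h1 : HasDerivAt (fun t : ℂ => -(r * w * t)) (-(r * w)) t := by
        have := ((hasDerivAt_id t).const_mul ((r : ℂ) * w)).neg
        exact this.congr_deriv (by simp)
      exact (h1.cexp).const_mul _)
  exact key.2.differentiableAt.differentiableWithinAt

/-- The Laplace integral of a monomial. -/
lemma integral_pow_exp (n : ℕ) {s : ℝ} (hs : 0 < s) :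
    ∫ r : ℝ in Ioi 0, (r : ℂ) ^ n * Complex.exp (-(r * s)) = (n ! : ℂ) / (s : ℂ) ^ (n + 1) := by
  have h1 := Complex.integral_cpow_mul_exp_neg_mul_Ioi (a := (n : ℂ) + 1) (r := s)
    (by simp; positivity) hs
  rw [Complex.Gamma_nat_eq_factorial] at h1
  have h2 : ∀ r : ℝ, (r : ℂ) ^ ((n : ℂ) + 1 - 1) * Complex.exp (-(s * r))
      = (r : ℂ) ^ n * Complex.exp (-(r * s)) := by
    intro r
    rw [add_sub_cancel_right, Complex.cpow_natCast, mul_comm (s : ℂ)]
  simp_rw [h2] at h1
  rw [h1]
  have h3 : ((1 : ℂ) / s) ^ ((n : ℂ) + 1) = (1 / s) ^ (n + 1) := by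
    rw [← Complex.cpow_natCast]
    push_cast
    rfl
  rw [h3, div_pow, one_pow]
  ring

lemma integral_pow_exp_real (n : ℕ) {s : ℝ} (hs : 0 < s) :
    ∫ r : ℝ in Ioi 0, r ^ n * Real.exp (-(r * s)) = (n ! : ℝ) / s ^ (n + 1) := by
  have h1 := integral_pow_exp n hs
  have h2 : ∀ r : ℝ, (r : ℂ) ^ n * Complex.exp (-(r * s)) = ((r ^ n * Real.exp (-(r * s)) : ℝ) : ℂ) := by
    intro r
    push_cast
    rfl
  simp_rw [h2] at h1
  rw [integral_complex_ofReal] at h1
  have h3 : ((n ! : ℂ) / (s : ℂ) ^ (n + 1)) = (((n ! : ℝ) / s ^ (n + 1) : ℝ) : ℂ) := by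
    push_cast
    rfl
  rw [h3] at h1
  exact_mod_cast h1

lemma integrable_pow_exp (n : ℕ) {s : ℝ} (hs : 0 < s) :
    IntegrableOn (fun r : ℝ => r ^ n * Real.exp (-(r * s))) (Ioi 0) := by
  have h1 : (∫ r : ℝ in Ioi 0, r ^ n * Real.exp (-(r * s))) ≠ 0 := by
    rw [integral_pow_exp_real n hs]
    positivity
  by_contra h2
  exact h1 (integral_undef h2)

/-- Far out on the ray the Laplace integral is the Borel transform. -/
lemma lap_eq_borel (hL : Differentiable ℂ L) (hA : 0 ≤ A) (hB : 0 < B)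
    (hg : ∀ z : ℂ, ‖L z‖ ≤ A * Real.exp (B * ‖z‖)) {w : ℂ} (hw : ‖w‖ = 1) {s : ℝ}
    (hs : Real.exp 1 * B < s) : lap L w (s / w) = borel L (s / w) := by
  have hs0 : 0 < s := lt_trans (by positivity) hs
  have hw0 : w ≠ 0 := by
    rintro rfl
    simp at hw
  have hT : ∀ r : ℝ, HasSum (fun n : ℕ => (w ^ (n + 1) * iteratedDeriv n L 0 / (n ! : ℂ))
      * ((r : ℂ) ^ n * Complex.exp (-(r * s)))) (w * L (r * w) * Complex.exp (-(r * w * (s / w)))) := by
    intro r
    have h1 := Complex.hasSum_taylorSeries_of_entire hL 0 ((r : ℂ) * w)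
    have h2 := (h1.mul_left w).mul_right (Complex.exp (-(r * w * (s / w))))
    have h3 : (fun n : ℕ => (w ^ (n + 1) * iteratedDeriv n L 0 / (n ! : ℂ))
        * ((r : ℂ) ^ n * Complex.exp (-(r * s))))
        = (fun n : ℕ => w * ((n ! : ℂ)⁻¹ • ((r : ℂ) * w - 0) ^ n • iteratedDeriv n L 0)
          * Complex.exp (-(r * w * (s / w)))) := by
      funext n
      have h4 : (r : ℂ) * w * (s / w) = r * s := by
        field_simp
      rw [h4, sub_zero, smul_eq_mul, smul_eq_mul, mul_pow]
      ring
    rw [h3]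
    exact h2
  have hterm : ∀ n : ℕ, ∫ r : ℝ in Ioi 0, (w ^ (n + 1) * iteratedDeriv n L 0 / (n ! : ℂ))
      * ((r : ℂ) ^ n * Complex.exp (-(r * s))) = iteratedDeriv n L 0 / (s / w : ℂ) ^ (n + 1) := by
    intro n
    rw [integral_const_mul, integral_pow_exp n hs0, div_pow]
    have h1 : (n ! : ℂ) ≠ 0 := by exact_mod_cast Nat.factorial_ne_zero n
    have h2 : (s : ℂ) ≠ 0 := by exact_mod_cast hs0.ne'
    field_simp
  have hnorm : ∀ (n : ℕ) (r : ℝ), 0 < r → ‖(w ^ (n + 1) * iteratedDeriv n L 0 / (n ! : ℂ))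
      * ((r : ℂ) ^ n * Complex.exp (-(r * s)))‖
      = (‖iteratedDeriv n L 0‖ / (n ! : ℝ)) * (r ^ n * Real.exp (-(r * s))) := by
    intro n r hr
    rw [norm_mul, norm_div, norm_mul, norm_pow, hw, one_pow, one_mul, norm_mul, norm_pow,
      Complex.norm_real, Real.norm_eq_abs, abs_of_pos hr, Complex.norm_natCast, Complex.norm_exp]
    congr 3
    rw [← Complex.ofReal_mul, ← Complex.ofReal_neg, Complex.ofReal_re]
  have hint : ∀ n : ℕ, Integrable (fun r : ℝ => (w ^ (n + 1) * iteratedDeriv n L 0 / (n ! : ℂ))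
      * ((r : ℂ) ^ n * Complex.exp (-(r * s)))) (volume.restrict (Ioi 0)) := by
    intro n
    refine Integrable.mono' ((integrable_pow_exp n hs0).const_mul
      (‖iteratedDeriv n L 0‖ / (n ! : ℝ))) (by
        apply Continuous.aestronglyMeasurable
        fun_prop) ?_
    rw [ae_restrict_iff' measurableSet_Ioi]
    exact Eventually.of_forall (fun r hr => (hnorm n r hr).le)
  have hin : ∀ n : ℕ, ∫ r : ℝ in Ioi 0, ‖(w ^ (n + 1) * iteratedDeriv n L 0 / (n ! : ℂ))
      * ((r : ℂ) ^ n * Complex.exp (-(r * s)))‖ = ‖iteratedDeriv n L 0‖ / s ^ (n + 1) := by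
    intro n
    rw [setIntegral_congr_fun measurableSet_Ioi (fun r hr => hnorm n r hr), integral_const_mul,
      integral_pow_exp_real n hs0]
    have h1 : (n ! : ℝ) ≠ 0 := by exact_mod_cast Nat.factorial_ne_zero n
    field_simp
  have hsum : Summable (fun n : ℕ => ∫ r : ℝ in Ioi 0, ‖(w ^ (n + 1) * iteratedDeriv n L 0 / (n ! : ℂ))
      * ((r : ℂ) ^ n * Complex.exp (-(r * s)))‖) := by
    simp_rw [hin]
    have hs : Summable (fun n : ℕ => A / s * ((Real.exp 1 * B) / s) ^ n) := by
      apply Summable.mul_left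
      apply summable_geometric_of_lt_one (by positivity)
      rw [div_lt_one hs0]
      exact hs
    refine Summable.of_nonneg_of_le (fun n => by positivity) (fun n => ?_) hs
    have h1 := coef_bound hL hA hB hg n
    calc ‖iteratedDeriv n L 0‖ / s ^ (n + 1) ≤ (A * (Real.exp 1 * B) ^ n) / s ^ (n + 1) := by
          gcongr
      _ = A / s * ((Real.exp 1 * B) / s) ^ n := by
          rw [div_pow, pow_succ]
          field_simp
  have hfin := hasSum_integral_of_summable_integral_norm hint hsum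
  unfold lap borel
  have h5 : ∀ r : ℝ, w * L (r * w) * Complex.exp (-(r * w * (s / w)))
      = ∑' n : ℕ, (w ^ (n + 1) * iteratedDeriv n L 0 / (n ! : ℂ))
      * ((r : ℂ) ^ n * Complex.exp (-(r * s))) := fun r => (hT r).tsum_eq.symm
  simp_rw [h5]
  rw [← hfin.tsum_eq]
  simp_rw [hterm]

end Pool.Agent.H79.BP
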