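import Pool.Agent.H79.BP.Borel

set_option autoImplicit false
open Complex Filter MeasureTheory Set
open scoped Topology

namespace Pool.Agent.H79.BP

/-- The Borel transform continues analytically to the complement of `K`. -/
def Continues (L : ℂ → ℂ) (K : Set ℂ) : Prop :=
  ∃ g : ℂ → ℂ, DifferentiableOn ℂ g Kᶜ ∧ ∃ R : ℝ, ∀ t : ℂ, R < ‖t‖ → g t = borel L t

/-- The conjugate indicator diagram: the smallest compact convex set outside of which the Borel
transform continues analytically, i.e. the closed convex hull of its singular points. -/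
def diagram (L : ℂ → ℂ) : Set ℂ := ⋂₀ {K : Set ℂ | IsCompact K ∧ Convex ℝ K ∧ Continues L K}

variable {L : ℂ → ℂ} {A B : ℝ}

lemma ray_mem {w t : ℂ} (hw : ‖w‖ = 1) {c ρ : ℝ} (hc : 0 < c) (h1 : ρ < ‖t‖) (h2 : c < (t * w).re)
    {s : ℝ} (hs : 0 ≤ s) : ρ < ‖t + s / w‖ ∧ c < ((t + s / w) * w).re := by
  have hw0 : w ≠ 0 := by
    rintro rfl
    simp at hw
  have h3 : (t + s / w) * w = t * w + s := by
    field_simp
  have h4 : ((t + s / w) * w).re = (t * w).re + s := by
    rw [h3]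
    simp
  refine ⟨?_, by rw [h4]; linarith⟩
  have h5 : ‖t + s / w‖ = ‖t * w + s‖ := by
    rw [← h3, norm_mul, hw, mul_one]
  have h6 : ‖t‖ = ‖t * w‖ := by rw [norm_mul, hw, mul_one]
  rw [h5]
  rw [h6] at h1
  refine lt_of_lt_of_le h1 ?_
  rw [← sq_le_sq₀ (norm_nonneg _) (norm_nonneg _), ← Complex.normSq_eq_norm_sq,
    ← Complex.normSq_eq_norm_sq, Complex.normSq_apply, Complex.normSq_apply]
  simp only [Complex.add_re, Complex.ofReal_re, Complex.add_im, Complex.ofReal_im, add_zero]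
  nlinarith

/-- The overlap of the two domains is connected. -/
lemma overlap_preconnected {w : ℂ} (hw : ‖w‖ = 1) {c ρ : ℝ} (hc : 0 < c) (hρ : c < ρ) :
    IsPreconnected {t : ℂ | ρ < ‖t‖ ∧ c < (t * w).re} := by
  have hw0 : w ≠ 0 := by
    rintro rfl
    simp at hw
  -- the convex part far out
  have hD : Convex ℝ {t : ℂ | ρ < (t * w).re} := by
    have h1 : {t : ℂ | ρ < (t * w).re}
        = (fun t : ℂ => (t * w).re) ⁻¹' (Ioi ρ) := rfl
    rw [h1]
    apply Convex.is_linear_preimage (convex_Ioi ρ)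
    constructor
    · intro x y
      simp [add_mul]
    · intro a x
      simp [mul_assoc]
  have hDsub : {t : ℂ | ρ < (t * w).re} ⊆ {t : ℂ | ρ < ‖t‖ ∧ c < (t * w).re} := by
    intro t ht
    have ht' : ρ < (t * w).re := ht
    refine ⟨?_, lt_trans hρ ht'⟩
    refine lt_of_lt_of_le ht' ?_
    have := Complex.re_le_norm (t * w)
    rwa [norm_mul, hw, mul_one] at this
  set x₀ : ℂ := ((ρ + 1 : ℝ) : ℂ) / w with hx₀
  have hx₀D : x₀ ∈ {t : ℂ | ρ < (t * w).re} := by
    have : (x₀ * w).re = ρ + 1 := by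
      rw [hx₀, div_mul_cancel₀ _ hw0, Complex.ofReal_re]
    change ρ < (x₀ * w).re
    rw [this]
    linarith
  refine isPreconnected_of_forall x₀ ?_
  intro y hy
  obtain ⟨hy1, hy2⟩ := hy
  set ray : Set ℂ := (fun s : ℝ => y + s / w) '' (Ici 0) with hray
  have hrc : IsPreconnected ray := by
    apply isPreconnected_Ici.image
    fun_prop
  have hyr : y ∈ ray := ⟨0, by simp, by simp⟩
  have hrs : ray ⊆ {t : ℂ | ρ < ‖t‖ ∧ c < (t * w).re} := by
    rintro _ ⟨s, hs, rfl⟩
    exact ray_mem hw hc hy1 hy2 hs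
  have hz : (y + ((ρ + 1 : ℝ) : ℂ) / w) ∈ ray := ⟨ρ + 1, by simp; linarith, rfl⟩
  have hzD : (y + ((ρ + 1 : ℝ) : ℂ) / w) ∈ {t : ℂ | ρ < (t * w).re} := by
    have h3 : ((y + ((ρ + 1 : ℝ) : ℂ) / w) * w).re = (y * w).re + (ρ + 1) := by
      rw [add_mul, div_mul_cancel₀ _ hw0]
      simp
    change ρ < ((y + ((ρ + 1 : ℝ) : ℂ) / w) * w).re
    rw [h3]
    linarith
  refine ⟨ray ∪ {t : ℂ | ρ < (t * w).re}, ?_, Or.inr hx₀D, Or.inl hyr, ?_⟩
  · exact union_subset hrs hDsub
  · exact IsPreconnected.union _ hz hzD hrc hD.isPreconnected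

/-- The Laplace integral continues the Borel transform. -/
lemma lap_eqOn (hL : Differentiable ℂ L) (hA : 0 ≤ A) (hB : 0 < B)
    (hg : ∀ z : ℂ, ‖L z‖ ≤ A * Real.exp (B * ‖z‖)) {w : ℂ} (hw : ‖w‖ = 1) {c M ρ : ℝ}
    (hc : 0 < c) (hM : 0 ≤ M) (hb : ∀ r : ℝ, 0 ≤ r → ‖L (r * w)‖ ≤ M * Real.exp (c * r))
    (hρ : Real.exp 1 * B < ρ) (hcρ : c < ρ) :
    EqOn (lap L w) (borel L) {t : ℂ | ρ < ‖t‖ ∧ c < (t * w).re} := by
  have hw0 : w ≠ 0 := by
    rintro rfl
    simp at hw
  have hopen : IsOpen {t : ℂ | ρ < ‖t‖ ∧ c < (t * w).re} := by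
    have hc2 : Continuous (fun t : ℂ => (t * w).re) := by fun_prop
    exact (isOpen_lt continuous_const continuous_norm).inter (isOpen_lt continuous_const hc2)
  have h1 : AnalyticOnNhd ℂ (lap L w) {t : ℂ | ρ < ‖t‖ ∧ c < (t * w).re} :=
    ((lap_diff hL hw hM hb).mono (fun t ht => ht.2)).analyticOnNhd hopen
  have h2 : AnalyticOnNhd ℂ (borel L) {t : ℂ | ρ < ‖t‖ ∧ c < (t * w).re} :=
    ((borel_diff hL hA hB hg hρ).mono (fun t ht => ht.1)).analyticOnNhd hopen
  have hρ0 : 0 < ρ := lt_trans hc hcρ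
  have hz₀ : ((ρ + 1 : ℝ) : ℂ) / w ∈ {t : ℂ | ρ < ‖t‖ ∧ c < (t * w).re} := by
    constructor
    · rw [norm_div, hw, div_one, Complex.norm_real, Real.norm_eq_abs, abs_of_pos (by linarith)]
      linarith
    · rw [div_mul_cancel₀ _ hw0, Complex.ofReal_re]
      linarith
  refine AnalyticOnNhd.eqOn_of_preconnected_of_frequently_eq h1 h2
    (overlap_preconnected hw hc hcρ) hz₀ ?_
  have hmap : Tendsto (fun s : ℝ => (s : ℂ) / w) (𝓝[>] (ρ + 1)) (𝓝[≠] (((ρ + 1 : ℝ) : ℂ) / w)) := by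
    apply tendsto_nhdsWithin_of_tendsto_nhds_of_eventually_within
    · have : Continuous (fun s : ℝ => (s : ℂ) / w) := by fun_prop
      exact (this.tendsto (ρ + 1)).mono_left nhdsWithin_le_nhds
    · filter_upwards [self_mem_nhdsWithin] with s hs
      intro h
      have h3 : (s : ℂ) = ((ρ + 1 : ℝ) : ℂ) := by
        have h4 : (s : ℂ) / w = ((ρ + 1 : ℝ) : ℂ) / w := h
        rwa [div_left_inj' hw0] at h4
      have h5 : s = ρ + 1 := by exact_mod_cast h3
      have h6 : ρ + 1 < s := hs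
      linarith
  refine hmap.frequently ?_
  refine Eventually.frequently ?_
  filter_upwards [self_mem_nhdsWithin] with s hs
  have hs' : ρ + 1 < s := hs
  exact lap_eq_borel hL hA hB hg hw (by linarith)

/-- The easy half of Polya's theorem: an exponential bound on a ray cuts the diagram. -/
theorem diagram_subset (hL : Differentiable ℂ L) (hA : 0 ≤ A) (hB : 0 < B)
    (hg : ∀ z : ℂ, ‖L z‖ ≤ A * Real.exp (B * ‖z‖)) {w : ℂ} (hw : ‖w‖ = 1) {c M : ℝ}
    (hc : 0 < c) (hM : 0 ≤ M) (hb : ∀ r : ℝ, 0 ≤ r → ‖L (r * w)‖ ≤ M * Real.exp (c * r)) :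
    diagram L ⊆ {t : ℂ | (t * w).re ≤ c} := by
  set ρ := Real.exp 1 * B + c + 1 with hρdef
  have hρ : Real.exp 1 * B < ρ := by
    rw [hρdef]
    linarith
  have hcρ : c < ρ := by
    have : 0 < Real.exp 1 * B := by positivity
    rw [hρdef]
    linarith
  have hEq := lap_eqOn hL hA hB hg hw hc hM hb hρ hcρ
  have hK : (Metric.closedBall (0 : ℂ) ρ ∩ {t : ℂ | (t * w).re ≤ c}) ∈
      {K : Set ℂ | IsCompact K ∧ Convex ℝ K ∧ Continues L K} := by
    refine ⟨?_, ?_, ?_⟩
    · apply (isCompact_closedBall _ _).inter_right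
      exact isClosed_le (by fun_prop) continuous_const
    · apply (convex_closedBall _ _).inter
      have h1 : {t : ℂ | (t * w).re ≤ c} = (fun t : ℂ => (t * w).re) ⁻¹' (Iic c) := rfl
      rw [h1]
      apply Convex.is_linear_preimage (convex_Iic c)
      constructor
      · intro x y
        simp [add_mul]
      · intro a x
        simp [mul_assoc]
    · classical
      refine ⟨fun t => if ρ < ‖t‖ then borel L t else lap L w t, ?_, ρ, fun t ht => if_pos ht⟩
      intro t ht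
      by_cases h1 : ρ < ‖t‖
      · have hop : IsOpen {t : ℂ | ρ < ‖t‖} := isOpen_lt continuous_const continuous_norm
        have h2 : DifferentiableAt ℂ (borel L) t :=
          (borel_diff hL hA hB hg hρ).differentiableAt (hop.mem_nhds h1)
        refine (h2.congr_of_eventuallyEq ?_).differentiableWithinAt
        filter_upwards [hop.mem_nhds h1] with u hu
        exact if_pos hu
      · have h3 : c < (t * w).re := by
          by_contra h4
          apply ht
          refine ⟨?_, not_lt.mp h4⟩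
          simpa using not_lt.mp h1
        have hop : IsOpen {t : ℂ | c < (t * w).re} := isOpen_lt continuous_const (by fun_prop)
        have h2 : DifferentiableAt ℂ (lap L w) t :=
          (lap_diff hL hw hM hb).differentiableAt (hop.mem_nhds h3)
        refine (h2.congr_of_eventuallyEq ?_).differentiableWithinAt
        filter_upwards [hop.mem_nhds h3] with u hu
        by_cases h5 : ρ < ‖u‖
        · rw [if_pos h5]
          exact (hEq ⟨h5, hu⟩).symm
        · rw [if_neg h5]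
  intro t ht
  exact (mem_sInter.mp ht _ hK).2

/-- If `0` is an interior point of the diagram then the indicator is positive in every direction. -/
theorem positive_of_interior (hL : Differentiable ℂ L)
    (hg : ∃ A B : ℝ, ∀ z : ℂ, ‖L z‖ ≤ A * Real.exp (B * ‖z‖)) (h0 : (0 : ℂ) ∈ interior (diagram L)) :
    ∃ c : ℝ, 0 < c ∧ ∀ φ : ℝ, ∀ R : ℝ, ∃ r : ℝ, R < r ∧
      Real.exp (c * r) < ‖L ((r : ℂ) * Complex.exp ((φ : ℂ) * Complex.I))‖ := by
  obtain ⟨A₀, B₀, hg₀⟩ := hg
  obtain ⟨A, B, hA, hB, hg⟩ : ∃ A B : ℝ, 0 ≤ A ∧ 0 < B ∧ ∀ z : ℂ, ‖L z‖ ≤ A * Real.exp (B * ‖z‖) := by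
    refine ⟨|A₀|, |B₀| + 1, abs_nonneg _, by positivity, fun z => (hg₀ z).trans ?_⟩
    have h1 : A₀ * Real.exp (B₀ * ‖z‖) ≤ |A₀| * Real.exp (B₀ * ‖z‖) := by
      gcongr
      exact le_abs_self _
    refine h1.trans ?_
    gcongr
    have := le_abs_self B₀
    linarith
  obtain ⟨δ, hδ, hball⟩ := Metric.isOpen_iff.mp isOpen_interior 0 h0
  refine ⟨δ / 2, by positivity, ?_⟩
  intro φ R
  by_contra hcon
  simp only [not_exists, not_and, not_lt] at hcon
  set w : ℂ := Complex.exp ((φ : ℂ) * Complex.I) with hw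
  have hw1 : ‖w‖ = 1 := Complex.norm_exp_ofReal_mul_I φ
  have hw0 : w ≠ 0 := Complex.exp_ne_zero _
  set R' := max R 0 with hR'
  have hb : ∀ r : ℝ, 0 ≤ r → ‖L (r * w)‖ ≤ (1 + A * Real.exp (B * R')) * Real.exp (δ / 2 * r) := by
    intro r hr
    have hA1 : 0 ≤ A * Real.exp (B * R') := by positivity
    by_cases h1 : R < r
    · have h2 := hcon r h1
      refine h2.trans ?_
      have := Real.exp_pos (δ / 2 * r)
      nlinarith
    · have h2 := hg (r * w)
      rw [norm_mul, hw1, mul_one, Complex.norm_real, Real.norm_eq_abs, abs_of_nonneg hr] at h2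
      have h3 : r ≤ R' := (not_lt.mp h1).trans (le_max_left _ _)
      have h4 : A * Real.exp (B * r) ≤ A * Real.exp (B * R') := by gcongr
      have h5 : 1 ≤ Real.exp (δ / 2 * r) := Real.one_le_exp (by positivity)
      nlinarith
  have hsub := diagram_subset hL hA hB hg hw1 (c := δ / 2)
    (M := 1 + A * Real.exp (B * R')) (by positivity) (by positivity) hb
  have hp : (((3 * δ / 4 : ℝ) : ℂ) / w) ∈ diagram L := by
    apply interior_subset
    apply hball
    rw [mem_ball_zero_iff, norm_div, hw1, div_one, Complex.norm_real, Real.norm_eq_abs,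
      abs_of_pos (by positivity)]
    linarith
  have h6 := hsub hp
  have h7 : ((((3 * δ / 4 : ℝ) : ℂ) / w) * w).re ≤ δ / 2 := h6
  rw [div_mul_cancel₀ _ hw0, Complex.ofReal_re] at h7
  linarith

end Pool.Agent.H79.BP
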